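import Pool.Agent.Y199.ZF.Rat
import Pool.Agent.Y199.DM.Ret
import Pool.Agent.Q170.ZP.MultiNear

/-!
Conditions which hold on a hypersurface, at the points which are near to it at a place (helper file).
-/

set_option autoImplicit false

namespace Pool.Agent.Q170.DM

open MvPolynomial Pool.Agent.H936R2 Pool.Agent.Y199.DM Pool.Agent.Y199.ZF
open Pool.Agent.Q170.ZP.Multi Pool.Agent.W466.ZC
open Pool.Agent.TH526.ZL (coefsP coefsP_finite)

variable {r : ℕ}

/-- A polynomial which vanishes at the common zeros of `w b` on the hypersurface `D = 0`, outside of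
`E = 0`, is small at the points near to the hypersurface at which the `w b` are small. -/
theorem certV (D E : MvPolynomial (Fin r) ℤ) {β : Type} [Fintype β]
    (w : β → MvPolynomial (Fin r) ℂ) (h : MvPolynomial (Fin r) ℂ)
    (H : ∀ t : Fin r → ℂ, aeval t D = 0 → aeval t E ≠ 0 → (∀ b, eval t (w b) = 0) →
      eval t h = 0) :
    ∃ S : Set ℂ, S.Finite ∧ ∀ V : ValuationSubring ℂ, (∀ z ∈ S, z ∈ V) → ∀ t : Fin r → ℂ,
      (∀ j, t j ∈ V) → V.valuation (aeval t D) < 1 → V.valuation (aeval t E) = 1 →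
      (∀ b, V.valuation (eval t (w b)) < 1) → V.valuation (eval t h) < 1 := by
  classical
  have hint : ∀ (t : Fin r → ℂ) (P : MvPolynomial (Fin r) ℤ),
      aeval t (MvPolynomial.map (Int.castRingHom ℂ) P) = aeval t P := by
    intro t P
    rw [aeval_def, eval₂_map, aeval_def]
    congr 1
  have hev : ∀ (t : Fin r → ℂ) (P : MvPolynomial (Fin r) ℂ), aeval t P = eval t P := by
    intro t P
    exact RingHom.congr_fun (coe_aeval_eq_eval t) P
  obtain ⟨M, U, hU⟩ := certP (k := ℂ) (σ := Fin r)
    (fun a : Empty => (a.elim : MvPolynomial (Fin r) ℂ))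
    (fun b : Option β => Option.elim b (MvPolynomial.map (Int.castRingHom ℂ) D) w)
    (MvPolynomial.map (Int.castRingHom ℂ) E * h) (by
      intro t _ ht
      rw [map_mul, hint]
      by_cases hE : aeval t E = 0
      · rw [hE, zero_mul]
      · have hD : aeval t D = 0 := by
          have h1 := ht none
          simp only [Option.elim_none] at h1
          rwa [hint] at h1
        rw [hev, H t hD hE fun b => by
          have h1 := ht (some b)
          simp only [Option.elim_some] at h1
          rwa [hev] at h1, mul_zero])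
  refine ⟨⋃ b, coefsP (U b), Set.finite_iUnion fun b => coefsP_finite _,
    fun V hV t ht hD hE hw => ?_⟩
  have hUV : ∀ b, V.valuation (aeval t (U b)) ≤ 1 := fun b =>
    (ValuationSubring.valuation_le_one_iff _ _).2 (aeval_mem V _ (fun u hu =>
      hV _ (Set.mem_iUnion.2 ⟨b, ⟨u, hu, rfl⟩⟩)) ht)
  have h1 := hU t (fun a => a.elim)
  rw [map_mul, hint] at h1
  have h2 : V.valuation ((aeval t E * aeval t h) ^ M) < 1 := by
    rw [h1]
    refine Valuation.map_sum_lt _ one_ne_zero fun b _ => ?_
    rw [map_mul]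
    refine (mul_le_of_le_one_left' (hUV b)).trans_lt ?_
    rcases b with _ | b
    · simp only [Option.elim_none]
      rw [hint]
      exact hD
    · simp only [Option.elim_some]
      rw [hev]
      exact hw b
  rw [← hev]
  by_contra hcon
  push Not at hcon
  rw [map_pow, map_mul, hE, one_mul] at h2
  exact absurd h2 (not_lt.2 (one_le_pow₀ hcon))

section norms

variable {p : ℕ} [hp : Fact p.Prime] (τ : ℂ →+* PadicAlgCl p)

theorem val_lt_iff {x : ℂ} : (ringOf τ).valuation x < 1 ↔ ‖τ x‖ < 1 := by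
  refine ⟨fun h => ?_, val_ringOf τ⟩
  by_contra hcon
  push Not at hcon
  have hx0 : x ≠ 0 := by
    rintro rfl
    rw [map_zero, norm_zero] at hcon
    linarith
  have h1 : x⁻¹ ∈ ringOf τ := by
    rw [mem_ringOf, map_inv₀, norm_inv]
    exact inv_le_one_of_one_le₀ hcon
  have h2 := (ValuationSubring.valuation_le_one_iff _ _).2 h1
  rw [map_inv₀] at h2
  have h3 : 0 < (ringOf τ).valuation x := zero_lt_iff.2 ((map_ne_zero _).2 hx0)
  exact absurd h (not_lt.2 ((inv_le_one₀ h3).1 h2))

theorem val_le_iff {x : ℂ} : (ringOf τ).valuation x ≤ 1 ↔ ‖τ x‖ ≤ 1 := by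
  rw [ValuationSubring.valuation_le_one_iff, mem_ringOf]

theorem val_eq_iff {x : ℂ} : (ringOf τ).valuation x = 1 ↔ ‖τ x‖ = 1 := by
  constructor
  · intro h
    refine le_antisymm ((val_le_iff τ).1 h.le) ?_
    by_contra hcon
    push Not at hcon
    have := (val_lt_iff τ).2 hcon
    rw [h] at this
    exact lt_irrefl _ this
  · intro h
    refine le_antisymm ((val_le_iff τ).2 h.le) ?_
    by_contra hcon
    push Not at hcon
    have := (val_lt_iff τ).1 hcon
    rw [h] at this
    exact lt_irrefl _ this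

theorem norm_unit_of_near {a b : ℂ} (ha : ‖τ a‖ = 1) (h : ‖τ b - τ a‖ < 1) : ‖τ b‖ = 1 := by
  have h1 : (ringOf τ).valuation (b - a) < 1 := by
    rw [val_lt_iff, map_sub]
    exact h
  have h2 := (val_eq_iff τ).2 ha
  rw [← val_eq_iff]
  have h3 : b = a + (b - a) := by ring
  rw [h3, Valuation.map_add_eq_of_lt_left _ (by rw [h2]; exact h1), h2]

theorem norm_small_trans {a b c : ℂ} (h1 : ‖τ a - τ b‖ < 1) (h2 : ‖τ b - τ c‖ < 1) :
    ‖τ a - τ c‖ < 1 := by
  have h3 : τ a - τ c = (τ a - τ b) + (τ b - τ c) := by ring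
  rw [h3]
  exact (IsUltrametricDist.norm_add_le_max _ _).trans_lt (max_lt h1 h2)

/-- determinants of matrices which are near to each other -/
theorem det_near {n : ℕ} (A B : Matrix (Fin n) (Fin n) ℂ) (hA : ∀ i j, ‖τ (A i j)‖ ≤ 1)
    (hB : ∀ i j, ‖τ (B i j)‖ ≤ 1) (hAB : ∀ i j, ‖τ (A i j) - τ (B i j)‖ < 1) :
    ‖τ A.det - τ B.det‖ < 1 := by
  let A' : Matrix (Fin n) (Fin n) (unitBall (PadicAlgCl p)) := fun i j => ⟨τ (A i j), hA i j⟩
  let B' : Matrix (Fin n) (Fin n) (unitBall (PadicAlgCl p)) := fun i j => ⟨τ (B i j), hB i j⟩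
  have e1 : ((A'.det : unitBall (PadicAlgCl p)) : PadicAlgCl p) = τ A.det := by
    have h1 := RingHom.map_det (unitBall (PadicAlgCl p)).subtype A'
    have h2 := RingHom.map_det τ A
    rw [h2]
    exact h1
  have e2 : ((B'.det : unitBall (PadicAlgCl p)) : PadicAlgCl p) = τ B.det := by
    have h1 := RingHom.map_det (unitBall (PadicAlgCl p)).subtype B'
    have h2 := RingHom.map_det τ B
    rw [h2]
    exact h1
  have h3 : res (PadicAlgCl p) A'.det = res (PadicAlgCl p) B'.det := by
    rw [RingHom.map_det, RingHom.map_det]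
    congr 1
    ext i j
    change res (PadicAlgCl p) (A' i j) = res (PadicAlgCl p) (B' i j)
    rw [← sub_eq_zero, ← map_sub, res_eq_zero_iff]
    exact hAB i j
  rw [← sub_eq_zero, ← map_sub, res_eq_zero_iff] at h3
  rw [← e1, ← e2]
  exact h3

end norms

end Pool.Agent.Q170.DM
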