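import Pool.Agent.Q170.DM.Near
import Pool.Agent.Y199.DM.Nf

/-!
Dynamical Mordell-Lang for the members of families with several parameters which are near to a
hypersurface over which the starting point is preperiodic (helper file).
-/

set_option autoImplicit false

namespace Pool.Agent.Q170.DM

open MvPolynomial Pool.Agent.H936R2 Pool.Agent.Y199.DM Pool.Agent.Y199.ZF
open Pool.Agent.Q170.ZP.Multi Pool.Agent.W466.ZC
open Pool.Agent.TH526.ZL (coefsP coefsP_finite)

variable {N r : ℕ}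

/-- Over the hypersurface `D = 0`, outside of `E = 0`, the determinant of the matrix of the partial
derivatives does not vanish at the iterates of index at least `n₁`. -/
def EtaleOn (F : Fin (N + 1) → MvPolynomial (Fin (N + 1)) (MvPolynomial (Fin r) ℂ))
    (x : Fin (N + 1) → MvPolynomial (Fin r) ℂ) (D E : MvPolynomial (Fin r) ℤ) (n₁ : ℕ) : Prop :=
  ∀ t : Fin r → ℂ, aeval t D = 0 → aeval t E ≠ 0 → ∀ n, n₁ ≤ n →
    (Matrix.of fun i j => eval ((pt (member F t))^[n] (start x t))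
      (pderiv j (member F t i))).det ≠ 0

/-- Almost all embeddings are integral on a finite set. -/
theorem exists_emb (s : Set ℂ) (hs : s.Finite) : ∃ Q : ℕ, ∀ (p : ℕ) [Fact p.Prime], Q < p →
    ∃ τ : ℂ →+* PadicAlgCl p, ∀ x ∈ s, ‖τ x‖ ≤ 1 := by
  classical
  obtain ⟨Q, hQ⟩ := emb_zero hs.toFinset
  refine ⟨Q, fun p hp hlt => ?_⟩
  obtain ⟨τ, h1, -⟩ := hQ p hlt 0 Polynomial.X Polynomial.irreducible_X (by simp) (by simp)
  exact ⟨τ, fun x hx => h1 x (hs.mem_toFinset.2 hx)⟩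

theorem preperiodicOn_add {d : ℕ}
    {F : Fin (N + 1) → MvPolynomial (Fin (N + 1)) (MvPolynomial (Fin r) ℂ)}
    (hF : ∀ i, (F i).IsHomogeneous d) {x : Fin (N + 1) → MvPolynomial (Fin r) ℂ}
    {D E : MvPolynomial (Fin r) ℤ} {n₀ m : ℕ} (h : PreperiodicOn F x D E n₀ m) (k : ℕ) :
    PreperiodicOn F x D E (k + n₀) m := by
  intro t hD hE
  obtain ⟨h1, c, hc⟩ := h t hD hE
  refine ⟨h1, c ^ d ^ k, ?_⟩
  rw [Nat.add_assoc, Function.iterate_add_apply, hc, Function.iterate_add_apply _ k n₀]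
  exact iterate_scale (member F t) d (fun i => homog_member (hF i) t) c
    ((pt (member F t))^[n₀] (start x t)) k

section tau

variable {p : ℕ} [hp : Fact p.Prime] (τ : ℂ →+* PadicAlgCl p)

/-- The Jacobian determinants at points which are near to each other. -/
theorem jac_near (f : Fin (N + 1) → MvPolynomial (Fin (N + 1)) ℂ) (x y : Fin (N + 1) → ℂ)
    (hf : ∀ i κ, ‖τ ((f i).coeff κ)‖ ≤ 1) (hx : ∀ i, ‖τ (x i)‖ ≤ 1) (hy : ∀ i, ‖τ (y i)‖ ≤ 1)
    (hxy : ∀ i, ‖τ (x i) - τ (y i)‖ < 1) :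
    ‖τ (jac f x).det - τ (jac f y).det‖ < 1 := by
  have hpd : ∀ i j κ, ‖τ ((pderiv j (f i)).coeff κ)‖ ≤ 1 := by
    intro i j κ
    exact pderiv_coeff_mem (ringOf τ).toSubring (f i) (fun κ => hf i κ) j κ
  have h1 := fun i j => mv_near τ (pderiv j (f i)) (pderiv j (f i)) x y (hpd i j) (hpd i j)
    (fun κ => by rw [sub_self, norm_zero]; exact one_pos) hx hy hxy
  exact det_near τ _ _ (fun i j => (h1 i j).1) (fun i j => (h1 i j).2.1) fun i j => (h1 i j).2.2

end tau

theorem near_dml {d : ℕ} (F : Fin (N + 1) → MvPolynomial (Fin (N + 1)) (MvPolynomial (Fin r) ℂ))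
    (hF : ∀ i, (F i).IsHomogeneous d) (x : Fin (N + 1) → MvPolynomial (Fin r) ℂ)
    (D E : MvPolynomial (Fin r) ℤ) (n₀ m n₁ : ℕ) (hm : 0 < m) (h : PreperiodicOn F x D E n₀ m)
    (hdet : EtaleOn F x D E n₁) :
    ∃ S : Set ℂ, S.Finite ∧ ∀ (p : ℕ) [Fact p.Prime] (τ : ℂ →+* PadicAlgCl p),
      (∀ z ∈ S, ‖τ z‖ ≤ 1) → ∀ t : Fin r → ℂ, (∀ j, ‖τ (t j)‖ ≤ 1) → ‖τ (aeval t D)‖ < 1 →
      ‖τ (aeval t E)‖ = 1 → DMLAt (member F t) (start x t) := by
  classical
  obtain ⟨S, hS, hmain⟩ := near_main F hF x D E (n₁ + n₀) m hm (preperiodicOn_add hF h n₁)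
  have hc : ∀ n : ℕ, n₁ ≤ n → ∃ S : Set ℂ, S.Finite ∧ ∀ V : ValuationSubring ℂ,
      (∀ z ∈ S, z ∈ V) → ∀ t : Fin r → ℂ, (∀ j, t j ∈ V) → V.valuation (aeval t D) < 1 →
      V.valuation (aeval t E) = 1 → ¬ V.valuation (eval t (jac F ((pt F)^[n] x)).det) < 1 := by
    intro n hn
    obtain ⟨S, hS, h1⟩ := certV D E (fun _ : Unit => (jac F ((pt F)^[n] x)).det) 1 (by
      intro t hD hE hw
      have h2 : (jac (member F t) ((pt (member F t))^[n] (start x t))).det ≠ 0 :=
        hdet t hD hE n hn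
      rw [jac_eq] at h2
      exact absurd (hw ()) h2)
    refine ⟨S, hS, fun V hV t ht hD hE hw => ?_⟩
    have h2 := h1 V hV t ht hD hE fun _ => hw
    rw [map_one, map_one] at h2
    exact lt_irrefl _ h2
  choose S1 hS1 hS1' using hc
  have hle : ∀ l : ℕ, n₁ ≤ n₁ + n₀ + l := fun l => by omega
  refine ⟨S ∪ ⋃ l ∈ Finset.range m, S1 (n₁ + n₀ + l) (hle l), hS.union
    (Set.Finite.biUnion (Finset.finite_toSet _) fun l _ => hS1 _ _), ?_⟩
  intro p hp τ hτ t ht hD hE
  obtain ⟨hf, hx, hne, hper⟩ := hmain p τ (fun z hz => hτ z (Or.inl hz)) t ht hD hE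
  have hD' : (ringOf τ).valuation (aeval t D) < 1 := (val_lt_iff τ).2 hD
  have hE' : (ringOf τ).valuation (aeval t E) = 1 := (val_eq_iff τ).2 hE
  have hint := iterates_int τ (member F t) (start x t) hf hx
  have hjint : ∀ y : Fin (N + 1) → ℂ, (∀ i, ‖τ (y i)‖ ≤ 1) →
      ‖τ (jac (member F t) y).det‖ ≤ 1 := by
    intro y hy
    have hpd : ∀ i j κ, ‖τ ((pderiv j (member F t i)).coeff κ)‖ ≤ 1 := by
      intro i j κ
      exact pderiv_coeff_mem (ringOf τ).toSubring (member F t i) (fun κ => hf i κ) j κ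
    rw [Matrix.det_apply]
    have h1 : (∑ σ : Equiv.Perm (Fin (N + 1)), Equiv.Perm.sign σ • ∏ i,
        (jac (member F t) y) (σ i) i) ∈ (ringOf τ).toSubring := by
      refine sum_mem fun σ _ => ?_
      rw [Units.smul_def]
      refine zsmul_mem (prod_mem fun i _ => ?_) _
      exact (mv_near τ (pderiv i (member F t (σ i))) (pderiv i (member F t (σ i))) y y
        (hpd _ _) (hpd _ _) (fun κ => by rw [sub_self, norm_zero]; exact one_pos) hy hy
        (fun i => by rw [sub_self, norm_zero]; exact one_pos)).1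
    exact h1
  have hself : ∀ i κ, ‖τ ((member F t i).coeff κ) - τ ((member F t i).coeff κ)‖ < 1 :=
    fun i κ => by rw [sub_self, norm_zero]; exact one_pos
  have hselfx : ∀ i, ‖τ (start x t i) - τ (start x t i)‖ < 1 :=
    fun i => by rw [sub_self, norm_zero]; exact one_pos
  refine orbit_core τ (member F t) (member F t) (start x t) (start x t) hf hf hself hx hx hselfx
    (n₁ + n₀) (fun n hn => ?_) hne
  obtain ⟨l, rfl⟩ := Nat.exists_eq_add_of_le hn
  obtain ⟨u, hu, hui⟩ := hper l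
  have hlm : l % m < m := Nat.mod_lt _ hm
  have h1 : ‖τ (jac (member F t) ((pt (member F t))^[n₁ + n₀ + l % m] (start x t))).det‖ = 1 := by
    refine le_antisymm (hjint _ (hint _)) ?_
    by_contra hcon
    push Not at hcon
    refine hS1' (n₁ + n₀ + l % m) (hle _) (ringOf τ) (fun z hz => ?_) t ht hD' hE'
      ((val_lt_iff τ).2 ?_)
    · exact hτ z (Or.inr (Set.mem_biUnion (Finset.mem_coe.2 (Finset.mem_range.2 hlm)) hz))
    · rw [← jac_eq]
      exact hcon
  have h2 := jac_near τ (member F t) ((pt (member F t))^[n₁ + n₀ + l] (start x t))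
    (u • (pt (member F t))^[n₁ + n₀ + l % m] (start x t)) hf (hint _) (fun i => by
      rw [Pi.smul_apply, smul_eq_mul, map_mul, norm_mul, hu, one_mul]
      exact hint _ _) (fun i => hui i)
  refine norm_unit_of_near τ (a := (jac (member F t)
    (u • (pt (member F t))^[n₁ + n₀ + l % m] (start x t))).det) ?_ h2
  rw [jac_smul (d := d) (member F t) (fun i => homog_member (hF i) t), map_mul, norm_mul, map_pow,
    map_pow, norm_pow, norm_pow, hu, one_pow, one_pow, one_mul]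
  exact h1

/-- The numbers of the iterates which are in `V_t` for some `t` on the hypersurface. -/
def returnsOn {κ : Type} (F : Fin (N + 1) → MvPolynomial (Fin (N + 1)) (MvPolynomial (Fin r) ℂ))
    (x : Fin (N + 1) → MvPolynomial (Fin r) ℂ)
    (G : κ → MvPolynomial (Fin (N + 1)) (MvPolynomial (Fin r) ℂ))
    (D E : MvPolynomial (Fin r) ℤ) : Set ℕ :=
  {n | ∃ t : Fin r → ℂ, aeval t D = 0 ∧ aeval t E ≠ 0 ∧
    n ∈ returnSet (member F t) (start x t) (member G t)}

theorem near_ret {d : ℕ} {κ : Type} [Finite κ]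
    (F : Fin (N + 1) → MvPolynomial (Fin (N + 1)) (MvPolynomial (Fin r) ℂ))
    (hF : ∀ i, (F i).IsHomogeneous d) (x : Fin (N + 1) → MvPolynomial (Fin r) ℂ)
    (G : κ → MvPolynomial (Fin (N + 1)) (MvPolynomial (Fin r) ℂ)) (e : κ → ℕ)
    (hG : ∀ k, (G k).IsHomogeneous (e k))
    (D E : MvPolynomial (Fin r) ℤ) (n₀ m : ℕ) (hm : 0 < m) (h : PreperiodicOn F x D E n₀ m) :
    ∃ S : Set ℂ, S.Finite ∧ ∀ (p : ℕ) [Fact p.Prime] (τ : ℂ →+* PadicAlgCl p),
      (∀ z ∈ S, ‖τ z‖ ≤ 1) → ∀ t : Fin r → ℂ, (∀ j, ‖τ (t j)‖ ≤ 1) → ‖τ (aeval t D)‖ < 1 →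
      ‖τ (aeval t E)‖ = 1 → (∀ n, (pt (member F t))^[n] (start x t) ≠ 0) ∧
      returnSet (member F t) (start x t) (member G t) ⊆ returnsOn F x G D E := by
  classical
  have : Fintype κ := Fintype.ofFinite κ
  obtain ⟨S, hS, hmain⟩ := near_main F hF x D E n₀ m hm h
  have hc : ∀ n : ℕ, ∃ S : Set ℂ, S.Finite ∧ (n ∉ returnsOn F x G D E →
      ∀ V : ValuationSubring ℂ,
      (∀ z ∈ S, z ∈ V) → ∀ t : Fin r → ℂ, (∀ j, t j ∈ V) → V.valuation (aeval t D) < 1 →
      V.valuation (aeval t E) = 1 →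
      ¬ ∀ k, V.valuation (eval t (eval ((pt F)^[n] x) (G k))) < 1) := by
    intro n
    by_cases hn : n ∈ returnsOn F x G D E
    · exact ⟨∅, Set.finite_empty, fun h => absurd hn h⟩
    obtain ⟨S, hS, h1⟩ := certV D E (fun k : κ => eval ((pt F)^[n] x) (G k)) 1 (by
      intro t hD hE hw
      refine absurd ⟨t, hD, hE, fun k => ?_⟩ hn
      rw [eval_orbit]
      exact hw k)
    refine ⟨S, hS, fun _ V hV t ht hD hE hw => ?_⟩
    have h2 := h1 V hV t ht hD hE hw
    rw [map_one, map_one] at h2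
    exact lt_irrefl _ h2
  choose S1 hS1 hS1' using hc
  let SG : Set ℂ := ⋃ i, ⋃ κ ∈ (G i).support, coefsP ((G i).coeff κ)
  refine ⟨S ∪ SG ∪ ⋃ n ∈ Finset.range (n₀ + m), S1 n, (hS.union ?_).union
    (Set.Finite.biUnion (Finset.finite_toSet _) fun l _ => hS1 _), ?_⟩
  · exact Set.finite_iUnion fun i => Set.Finite.biUnion (Finset.finite_toSet _)
      fun κ _ => coefsP_finite _
  intro p hp τ hτ t ht hD hE
  obtain ⟨hf, hx, hne, hper⟩ := hmain p τ (fun z hz => hτ z (Or.inl (Or.inl hz))) t ht hD hE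
  have hSG : ∀ z ∈ SG, ‖τ z‖ ≤ 1 := fun z hz => hτ z (Or.inl (Or.inr hz))
  have hD' : (ringOf τ).valuation (aeval t D) < 1 := (val_lt_iff τ).2 hD
  have hE' : (ringOf τ).valuation (aeval t E) = 1 := (val_eq_iff τ).2 hE
  have hint := iterates_int τ (member F t) (start x t) hf hx
  have hg : ∀ i κ, ‖τ ((member G t i).coeff κ)‖ ≤ 1 := by
    intro i κ
    rw [coeff_member]
    by_cases hκ : κ ∈ (G i).support
    · exact eval_int τ _ (fun u hu => hSG u (Set.mem_iUnion.2 ⟨i, Set.mem_biUnion hκ hu⟩)) t ht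
    · rw [notMem_support_iff.1 hκ, map_zero, map_zero, norm_zero]
      exact zero_le_one
  refine ⟨fun n h0 => ?_, fun n hn => ?_⟩
  · obtain ⟨i, hi⟩ := hne n
    rw [h0, Pi.zero_apply, map_zero, norm_zero] at hi
    exact zero_ne_one hi
  -- the small indices
  have hsmall : ∀ n < n₀ + m, (∀ k, ‖τ (eval ((pt (member F t))^[n] (start x t))
      (member G t k))‖ < 1) → n ∈ returnsOn F x G D E := by
    intro n hn hk
    by_contra hcon
    refine hS1' n hcon (ringOf τ) (fun z hz => ?_) t ht hD' hE' fun k => (val_lt_iff τ).2 ?_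
    · exact hτ z (Or.inr (Set.mem_biUnion (Finset.mem_coe.2 (Finset.mem_range.2 hn)) hz))
    · rw [← eval_orbit]
      exact hk k
  have hn0 : ∀ k, eval ((pt (member F t))^[n] (start x t)) (member G t k) = 0 := hn
  rcases lt_or_ge n n₀ with hlt | hge
  · refine hsmall n (by omega) fun k => ?_
    rw [hn0 k, map_zero, norm_zero]
    exact one_pos
  obtain ⟨l, rfl⟩ := Nat.exists_eq_add_of_le hge
  obtain ⟨u, hu, hui⟩ := hper l
  have hlm : l % m < m := Nat.mod_lt _ hm
  have h1 : n₀ + l % m ∈ returnsOn F x G D E := by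
    refine hsmall _ (by omega) fun k => ?_
    have h2 := (mv_near τ (member G t k) (member G t k)
      ((pt (member F t))^[n₀ + l] (start x t))
      (fun i => u * (pt (member F t))^[n₀ + l % m] (start x t) i) (hg k) (hg k)
      (fun κ => by rw [sub_self, norm_zero]; exact one_pos) (hint _) (fun i => by
        rw [map_mul, norm_mul, hu, one_mul]
        exact hint _ _) (fun i => hui i)).2.2
    rw [hn0 k, map_zero, zero_sub, norm_neg,
      eval_scale (member G t k) (e k) (homog_member (hG k) t), map_mul, norm_mul, map_pow,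
      norm_pow, hu, one_pow, one_mul] at h2
    exact h2
  obtain ⟨t', hD1, hE1, hret⟩ := h1
  refine ⟨t', hD1, hE1, fun k => ?_⟩
  obtain ⟨-, c, hc⟩ := h t' hD1 hE1
  -- the iterates of the preperiodic point
  have hitr : ∀ l : ℕ, ∃ e : ℂ, (pt (member F t'))^[n₀ + l] (start x t') =
      fun i => e * (pt (member F t'))^[n₀ + l % m] (start x t') i := by
    intro l
    induction l using Nat.strong_induction_on with
    | _ l ih =>
      rcases lt_or_ge l m with hl | hl
      · exact ⟨1, by rw [Nat.mod_eq_of_lt hl]; simp⟩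
      · obtain ⟨k, rfl⟩ := Nat.exists_eq_add_of_le' hl
        obtain ⟨e, he⟩ := ih k (by omega)
        have h3 := iterate_scale (member F t') d (fun i => homog_member (hF i) t') c
          ((pt (member F t'))^[n₀] (start x t')) k
        have h4 : (pt (member F t'))^[n₀ + (k + m)] (start x t') =
            fun i => c ^ d ^ k * (pt (member F t'))^[n₀ + k] (start x t') i := by
          have e1 : n₀ + (k + m) = k + (n₀ + m) := by omega
          have e2 : n₀ + k = k + n₀ := by omega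
          rw [e1, Function.iterate_add_apply, hc, e2, Function.iterate_add_apply]
          exact h3
        refine ⟨c ^ d ^ k * e, ?_⟩
        rw [h4, he, Nat.add_mod_right]
        funext i
        ring
  obtain ⟨e', he'⟩ := hitr l
  rw [he', eval_scale (member G t' k) (e k) (homog_member (hG k) t')]
  have h5 : eval ((pt (member F t'))^[n₀ + l % m] (start x t')) (member G t' k) = 0 := hret k
  have h6 : (fun i => (pt (member F t'))^[n₀ + l % m] (start x t') i) =
    (pt (member F t'))^[n₀ + l % m] (start x t') := rfl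
  rw [h5, mul_zero]

/-- From the criterion to integral points. -/
theorem int_points {P : (Fin r → ℂ) → Prop} (D E : MvPolynomial (Fin r) ℤ) {S : Set ℂ}
    (hS : S.Finite) (h : ∀ (p : ℕ) [Fact p.Prime] (τ : ℂ →+* PadicAlgCl p),
      (∀ z ∈ S, ‖τ z‖ ≤ 1) → ∀ t : Fin r → ℂ, (∀ j, ‖τ (t j)‖ ≤ 1) → ‖τ (aeval t D)‖ < 1 →
      ‖τ (aeval t E)‖ = 1 → P t) :
    ∃ Q : ℕ, ∀ t : Fin r → ℤ, (∃ p : ℕ, p.Prime ∧ Q < p ∧ (p : ℤ) ∣ eval t D ∧
      ¬ (p : ℤ) ∣ eval t E) → P (fun j => (t j : ℂ)) := by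
  obtain ⟨Q, hQ⟩ := exists_emb S hS
  refine ⟨Q, fun t ⟨p, hp, hlt, hD, hE⟩ => ?_⟩
  haveI : Fact p.Prime := ⟨hp⟩
  obtain ⟨τ, hτ⟩ := hQ p hlt
  have hev : ∀ P : MvPolynomial (Fin r) ℤ, τ (aeval (fun j => (t j : ℂ)) P) =
      ((eval t P : ℤ) : PadicAlgCl p) := by
    intro P
    have h1 : aeval (fun j => (t j : ℂ)) P = ((eval t P : ℤ) : ℂ) := by
      have h2 := eval₂_comp_left (Int.castRingHom ℂ) (RingHom.id _) t P
      rw [RingHom.comp_id] at h2
      exact h2.symm
    rw [h1, map_intCast]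
  have hile : ∀ z : ℤ, ‖(z : PadicAlgCl p)‖ ≤ 1 := by
    intro z
    rw [Pool.Agent.Y199.DM.norm_int]
    exact Padic.norm_int_le_one z
  refine h p τ hτ _ (fun j => ?_) ?_ ?_
  · rw [map_intCast]
    exact hile _
  · rw [hev]
    exact norm_lt_of_dvd hD
  · rw [hev]
    refine le_antisymm (hile _) ?_
    by_contra hcon
    push Not at hcon
    exact hE (dvd_of_norm_lt hcon)

end Pool.Agent.Q170.DM
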