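import Pool.Agent.Q170.DM.Cert

/-!
Orbits of the members of families with several parameters which are near to a hypersurface over
which the starting point is preperiodic (helper file).
-/

set_option autoImplicit false

namespace Pool.Agent.Q170.DM

open MvPolynomial Pool.Agent.H936R2 Pool.Agent.Y199.DM Pool.Agent.Y199.ZF
open Pool.Agent.Q170.ZP.Multi Pool.Agent.W466.ZC
open Pool.Agent.TH526.ZL (coefsP coefsP_finite)

variable {N r : ℕ}

/-- The member at `t` of a family of systems of polynomials in `N + 1` variables; the coefficients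
are complex polynomials in the parameters. -/
noncomputable def member {ι : Type} (F : ι → MvPolynomial (Fin (N + 1)) (MvPolynomial (Fin r) ℂ))
    (t : Fin r → ℂ) : ι → MvPolynomial (Fin (N + 1)) ℂ :=
  fun i => map (eval t) (F i)

/-- The starting point at `t`. -/
noncomputable def start (x : Fin (N + 1) → MvPolynomial (Fin r) ℂ) (t : Fin r → ℂ) :
    Fin (N + 1) → ℂ :=
  fun i => eval t (x i)

theorem coeff_member {ι : Type} (F : ι → MvPolynomial (Fin (N + 1)) (MvPolynomial (Fin r) ℂ))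
    (t : Fin r → ℂ) (i : ι) (κ : Fin (N + 1) →₀ ℕ) :
    (member F t i).coeff κ = eval t ((F i).coeff κ) := by
  rw [member, coeff_map]

theorem homog_member {ι : Type} {d : ℕ}
    {F : ι → MvPolynomial (Fin (N + 1)) (MvPolynomial (Fin r) ℂ)} {i : ι}
    (hF : (F i).IsHomogeneous d) (t : Fin r → ℂ) : (member F t i).IsHomogeneous d :=
  hF.map _

theorem orbit_eq (F : Fin (N + 1) → MvPolynomial (Fin (N + 1)) (MvPolynomial (Fin r) ℂ))
    (x : Fin (N + 1) → MvPolynomial (Fin r) ℂ) (t : Fin r → ℂ) (n : ℕ) :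
    (pt (member F t))^[n] (start x t) = fun i => eval t ((pt F)^[n] x i) :=
  pt_map (eval t) F x n

theorem orbit_apply (F : Fin (N + 1) → MvPolynomial (Fin (N + 1)) (MvPolynomial (Fin r) ℂ))
    (x : Fin (N + 1) → MvPolynomial (Fin r) ℂ) (t : Fin r → ℂ) (n : ℕ) (i : Fin (N + 1)) :
    (pt (member F t))^[n] (start x t) i = eval t ((pt F)^[n] x i) :=
  congrFun (orbit_eq F x t n) i

theorem jac_eq (F : Fin (N + 1) → MvPolynomial (Fin (N + 1)) (MvPolynomial (Fin r) ℂ))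
    (x : Fin (N + 1) → MvPolynomial (Fin r) ℂ) (t : Fin r → ℂ) (n : ℕ) :
    (jac (member F t) ((pt (member F t))^[n] (start x t))).det =
      eval t (jac F ((pt F)^[n] x)).det := by
  rw [orbit_eq, RingHom.map_det]
  exact congrArg Matrix.det (jac_map (eval t) F ((pt F)^[n] x))

theorem eval_orbit {κ : Type} (F : Fin (N + 1) → MvPolynomial (Fin (N + 1)) (MvPolynomial (Fin r) ℂ))
    (x : Fin (N + 1) → MvPolynomial (Fin r) ℂ)
    (G : κ → MvPolynomial (Fin (N + 1)) (MvPolynomial (Fin r) ℂ)) (t : Fin r → ℂ) (n : ℕ) (k : κ) :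
    eval ((pt (member F t))^[n] (start x t)) (member G t k) =
      eval t (eval ((pt F)^[n] x) (G k)) := by
  rw [orbit_eq, member, eval_map]
  have h := eval₂_comp_left (eval t) (RingHom.id _) ((pt F)^[n] x) (G k)
  rw [RingHom.comp_id] at h
  exact h.symm

/-- Over the hypersurface `D = 0`, outside of `E = 0`, the orbit of the starting point is defined and
its iterates of index `n₀` and `n₀ + m` are proportional. -/
def PreperiodicOn (F : Fin (N + 1) → MvPolynomial (Fin (N + 1)) (MvPolynomial (Fin r) ℂ))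
    (x : Fin (N + 1) → MvPolynomial (Fin r) ℂ) (D E : MvPolynomial (Fin r) ℤ) (n₀ m : ℕ) : Prop :=
  ∀ t : Fin r → ℂ, aeval t D = 0 → aeval t E ≠ 0 →
    (∀ n, (pt (member F t))^[n] (start x t) ≠ 0) ∧
    ∃ c : ℂ, (pt (member F t))^[n₀ + m] (start x t) = c • (pt (member F t))^[n₀] (start x t)

section tau

variable {p : ℕ} [hp : Fact p.Prime] (τ : ℂ →+* PadicAlgCl p)

theorem eval_int (P : MvPolynomial (Fin r) ℂ) (hP : ∀ u ∈ coefsP P, ‖τ u‖ ≤ 1) (t : Fin r → ℂ)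
    (ht : ∀ j, ‖τ (t j)‖ ≤ 1) : ‖τ (eval t P)‖ ≤ 1 := by
  have h1 : aeval t P ∈ ringOf τ := aeval_mem (ringOf τ) _
    (fun u hu => (mem_ringOf τ).2 (hP _ ⟨u, hu, rfl⟩)) (fun j => (mem_ringOf τ).2 (ht j))
  have h2 : aeval t P = eval t P := RingHom.congr_fun (coe_aeval_eq_eval t) P
  rw [← h2]
  exact h1

theorem iterates_int (f : Fin (N + 1) → MvPolynomial (Fin (N + 1)) ℂ) (x : Fin (N + 1) → ℂ)
    (hf : ∀ i κ, ‖τ ((f i).coeff κ)‖ ≤ 1) (hx : ∀ i, ‖τ (x i)‖ ≤ 1) (n : ℕ) (i : Fin (N + 1)) :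
    ‖τ ((pt f)^[n] x i)‖ ≤ 1 :=
  (iterates_near τ f f x x hf hf (fun i κ => by rw [sub_self, norm_zero]; exact one_pos) hx hx
    (fun i => by rw [sub_self, norm_zero]; exact one_pos) n i).1

theorem iterates_close (f : Fin (N + 1) → MvPolynomial (Fin (N + 1)) ℂ) (x y : Fin (N + 1) → ℂ)
    (hf : ∀ i κ, ‖τ ((f i).coeff κ)‖ ≤ 1) (hx : ∀ i, ‖τ (x i)‖ ≤ 1) (hy : ∀ i, ‖τ (y i)‖ ≤ 1)
    (hxy : ∀ i, ‖τ (x i) - τ (y i)‖ < 1) (n : ℕ) (i : Fin (N + 1)) :
    ‖τ ((pt f)^[n] x i) - τ ((pt f)^[n] y i)‖ < 1 :=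
  (iterates_near τ f f x y hf hf (fun i κ => by rw [sub_self, norm_zero]; exact one_pos) hx hy
    hxy n i).2.2

/-- If two integral points with unit coordinates have small minors then they are near to each other
up to a unit. -/
theorem exists_unit (a b : Fin (N + 1) → ℂ) (ha : ∃ i, ‖τ (a i)‖ = 1)
    (han : ∀ i, ‖τ (a i)‖ ≤ 1) (hb : ∃ i, ‖τ (b i)‖ = 1) (hbn : ∀ i, ‖τ (b i)‖ ≤ 1)
    (hm : ∀ i j, ‖τ (a i * b j - a j * b i)‖ < 1) :
    ∃ c : ℂ, ‖τ c‖ = 1 ∧ ∀ i, ‖τ (b i) - τ (c * a i)‖ < 1 := by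
  obtain ⟨i, hi⟩ := ha
  obtain ⟨j, hj⟩ := hb
  have hi0 : a i ≠ 0 := by
    intro h
    rw [h, map_zero, norm_zero] at hi
    exact zero_ne_one hi
  have h1 : ∀ k, ‖τ (b k) - τ (b i / a i * a k)‖ < 1 := by
    intro k
    have h2 := hm i k
    have h3 : a i * b k - a k * b i = a i * (b k - b i / a i * a k) := by
      field_simp
    rw [h3, map_mul, norm_mul, hi, one_mul, map_sub] at h2
    exact h2
  refine ⟨b i / a i, ?_, h1⟩
  have h2 : ‖τ (b i / a i)‖ = ‖τ (b i)‖ := by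
    rw [map_div₀, norm_div, hi, div_one]
  rw [h2]
  refine le_antisymm (hbn i) ?_
  by_contra hcon
  push Not at hcon
  have h3 : ‖τ (b i / a i * a j)‖ < 1 := by
    rw [map_mul, norm_mul, h2]
    exact mul_lt_one_of_nonneg_of_lt_one_left (norm_nonneg _) hcon (han j)
  have h4 : τ (b j) = (τ (b j) - τ (b i / a i * a j)) + τ (b i / a i * a j) := by ring
  have h5 : ‖τ (b j)‖ < 1 := by
    rw [h4]
    exact (IsUltrametricDist.norm_add_le_max _ _).trans_lt (max_lt (h1 j) h3)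
  rw [hj] at h5
  exact lt_irrefl _ h5

/-- The iterates of a point which is preperiodic up to elements of the maximal ideal. -/
theorem near_periodic {d : ℕ} (f : Fin (N + 1) → MvPolynomial (Fin (N + 1)) ℂ)
    (hF : ∀ i, (f i).IsHomogeneous d) (x : Fin (N + 1) → ℂ)
    (hf : ∀ i κ, ‖τ ((f i).coeff κ)‖ ≤ 1) (hx : ∀ i, ‖τ (x i)‖ ≤ 1) (n₀ m : ℕ) (hm : 0 < m)
    (c : ℂ) (hc : ‖τ c‖ = 1)
    (h : ∀ i, ‖τ ((pt f)^[n₀ + m] x i) - τ (c * (pt f)^[n₀] x i)‖ < 1) (l : ℕ) :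
    ∃ u : ℂ, ‖τ u‖ = 1 ∧
      ∀ i, ‖τ ((pt f)^[n₀ + l] x i) - τ (u * (pt f)^[n₀ + l % m] x i)‖ < 1 := by
  have hint := iterates_int τ f x hf hx
  have hstep : ∀ k i, ‖τ ((pt f)^[n₀ + (k + m)] x i) -
      τ (c ^ d ^ k * (pt f)^[n₀ + k] x i)‖ < 1 := by
    intro k i
    have h1 := iterates_close τ f ((pt f)^[n₀ + m] x) (fun i => c * (pt f)^[n₀] x i) hf
      (fun i => hint _ i) (fun i => by
        rw [map_mul, norm_mul, hc, one_mul]
        exact hint _ i) h k i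
    have h2 := congrFun (iterate_scale f d hF c ((pt f)^[n₀] x) k) i
    rw [h2, ← Function.iterate_add_apply, ← Function.iterate_add_apply] at h1
    have e1 : k + (n₀ + m) = n₀ + (k + m) := by omega
    have e2 : k + n₀ = n₀ + k := by omega
    rwa [e1, e2] at h1
  induction l using Nat.strong_induction_on with
  | _ l ih =>
    rcases lt_or_ge l m with hl | hl
    · refine ⟨1, by simp, fun i => ?_⟩
      rw [Nat.mod_eq_of_lt hl, one_mul, sub_self, norm_zero]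
      exact one_pos
    · obtain ⟨k, rfl⟩ := Nat.exists_eq_add_of_le' hl
      obtain ⟨u, hu, hui⟩ := ih k (by omega)
      have hck : ‖τ (c ^ d ^ k)‖ = 1 := by rw [map_pow, norm_pow, hc, one_pow]
      refine ⟨c ^ d ^ k * u, by rw [map_mul, norm_mul, hck, hu, one_mul], fun i => ?_⟩
      rw [Nat.add_mod_right]
      refine norm_small_trans τ (hstep k i) ?_
      have h3 : τ (c ^ d ^ k * (pt f)^[n₀ + k] x i) -
          τ (c ^ d ^ k * u * (pt f)^[n₀ + k % m] x i) = τ (c ^ d ^ k) *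
          (τ ((pt f)^[n₀ + k] x i) - τ (u * (pt f)^[n₀ + k % m] x i)) := by
        simp only [map_mul]
        ring
      rw [h3, norm_mul, hck, one_mul]
      exact hui i

end tau

/-- The main property: near to the hypersurface the iterates are nearly preperiodic. -/
theorem near_main {d : ℕ} (F : Fin (N + 1) → MvPolynomial (Fin (N + 1)) (MvPolynomial (Fin r) ℂ))
    (hF : ∀ i, (F i).IsHomogeneous d) (x : Fin (N + 1) → MvPolynomial (Fin r) ℂ)
    (D E : MvPolynomial (Fin r) ℤ) (n₀ m : ℕ) (hm : 0 < m) (h : PreperiodicOn F x D E n₀ m) :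
    ∃ S : Set ℂ, S.Finite ∧ ∀ (p : ℕ) [Fact p.Prime] (τ : ℂ →+* PadicAlgCl p),
      (∀ z ∈ S, ‖τ z‖ ≤ 1) → ∀ t : Fin r → ℂ, (∀ j, ‖τ (t j)‖ ≤ 1) → ‖τ (aeval t D)‖ < 1 →
      ‖τ (aeval t E)‖ = 1 →
      (∀ i κ, ‖τ ((member F t i).coeff κ)‖ ≤ 1) ∧ (∀ i, ‖τ (start x t i)‖ ≤ 1) ∧
      (∀ n, ∃ i, ‖τ ((pt (member F t))^[n] (start x t) i)‖ = 1) ∧
      ∀ l, ∃ u : ℂ, ‖τ u‖ = 1 ∧
        ∀ i, ‖τ ((pt (member F t))^[n₀ + l] (start x t) i) -
          τ (u * (pt (member F t))^[n₀ + l % m] (start x t) i)‖ < 1 := by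
  classical
  -- the certificates
  have hne : ∀ n : ℕ, ∃ S : Set ℂ, S.Finite ∧ ∀ V : ValuationSubring ℂ, (∀ z ∈ S, z ∈ V) →
      ∀ t : Fin r → ℂ, (∀ j, t j ∈ V) → V.valuation (aeval t D) < 1 →
      V.valuation (aeval t E) = 1 → (∀ i, V.valuation (eval t ((pt F)^[n] x i)) < 1) → False := by
    intro n
    obtain ⟨S, hS, h1⟩ := certV D E (fun i : Fin (N + 1) => (pt F)^[n] x i) 1 (by
      intro t hD hE hw
      exact absurd (funext fun i => (orbit_apply F x t n i).trans (hw i)) ((h t hD hE).1 n))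
    refine ⟨S, hS, fun V hV t ht hD hE hw => ?_⟩
    have h2 := h1 V hV t ht hD hE hw
    rw [map_one, map_one] at h2
    exact lt_irrefl _ h2
  choose Sn hSn hSn' using hne
  have hmin : ∀ i j : Fin (N + 1), ∃ S : Set ℂ, S.Finite ∧ ∀ V : ValuationSubring ℂ,
      (∀ z ∈ S, z ∈ V) → ∀ t : Fin r → ℂ, (∀ j, t j ∈ V) → V.valuation (aeval t D) < 1 →
      V.valuation (aeval t E) = 1 →
      V.valuation (eval t ((pt F)^[n₀] x i * (pt F)^[n₀ + m] x j -
        (pt F)^[n₀] x j * (pt F)^[n₀ + m] x i)) < 1 := by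
    intro i j
    obtain ⟨S, hS, h1⟩ := certV D E (fun a : Empty => (a.elim : MvPolynomial (Fin r) ℂ))
      ((pt F)^[n₀] x i * (pt F)^[n₀ + m] x j - (pt F)^[n₀] x j * (pt F)^[n₀ + m] x i) (by
        intro t hD hE _
        obtain ⟨-, c, hc⟩ := h t hD hE
        have h2 : ∀ k, eval t ((pt F)^[n₀ + m] x k) = c * eval t ((pt F)^[n₀] x k) := by
          intro k
          rw [← orbit_apply, ← orbit_apply, hc]
          rfl
        rw [map_sub, map_mul, map_mul, h2, h2]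
        ring)
    exact ⟨S, hS, fun V hV t ht hD hE => h1 V hV t ht hD hE fun a => a.elim⟩
  choose Sm hSm hSm' using hmin
  let SF : Set ℂ := ⋃ i, ⋃ κ ∈ (F i).support, coefsP ((F i).coeff κ)
  let Sx : Set ℂ := ⋃ i, coefsP (x i)
  refine ⟨SF ∪ Sx ∪ (⋃ n ∈ Finset.range (n₀ + m + 1), Sn n) ∪ ⋃ i, ⋃ j, Sm i j, ?_, ?_⟩
  · refine ((Set.Finite.union ?_ ?_).union ?_).union ?_
    · exact Set.finite_iUnion fun i => Set.Finite.biUnion (Finset.finite_toSet _)
        fun κ _ => coefsP_finite _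
    · exact Set.finite_iUnion fun i => coefsP_finite _
    · exact Set.Finite.biUnion (Finset.finite_toSet _) fun n _ => hSn n
    · exact Set.finite_iUnion fun i => Set.finite_iUnion fun j => hSm i j
  intro p hp τ hτ t ht hD hE
  have hSF : ∀ z ∈ SF, ‖τ z‖ ≤ 1 := fun z hz => hτ z (Or.inl (Or.inl (Or.inl hz)))
  have hSx : ∀ z ∈ Sx, ‖τ z‖ ≤ 1 := fun z hz => hτ z (Or.inl (Or.inl (Or.inr hz)))
  have hSN : ∀ n ≤ n₀ + m, ∀ z ∈ Sn n, z ∈ ringOf τ := fun n hn z hz =>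
    hτ z (Or.inl (Or.inr (Set.mem_biUnion (Finset.mem_coe.2
      (Finset.mem_range.2 (Nat.lt_succ_of_le hn))) hz)))
  have hSM : ∀ i j, ∀ z ∈ Sm i j, z ∈ ringOf τ := fun i j z hz =>
    hτ z (Or.inr (Set.mem_iUnion.2 ⟨i, Set.mem_iUnion.2 ⟨j, hz⟩⟩))
  have hD' : (ringOf τ).valuation (aeval t D) < 1 := (val_lt_iff τ).2 hD
  have hE' : (ringOf τ).valuation (aeval t E) = 1 := (val_eq_iff τ).2 hE
  have hf : ∀ i κ, ‖τ ((member F t i).coeff κ)‖ ≤ 1 := by
    intro i κ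
    rw [coeff_member]
    by_cases hκ : κ ∈ (F i).support
    · exact eval_int τ _ (fun u hu => hSF u (Set.mem_iUnion.2 ⟨i, Set.mem_biUnion hκ hu⟩)) t ht
    · rw [notMem_support_iff.1 hκ, map_zero, map_zero, norm_zero]
      exact zero_le_one
  have hx : ∀ i, ‖τ (start x t i)‖ ≤ 1 := fun i =>
    eval_int τ _ (fun u hu => hSx u (Set.mem_iUnion.2 ⟨i, hu⟩)) t ht
  have hint := iterates_int τ (member F t) (start x t) hf hx
  have hunit : ∀ n ≤ n₀ + m, ∃ i, ‖τ ((pt (member F t))^[n] (start x t) i)‖ = 1 := by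
    intro n hn
    by_contra hcon
    push Not at hcon
    refine hSn' n (ringOf τ) (hSN n hn) t ht hD' hE' fun i => (val_lt_iff τ).2 ?_
    rw [← orbit_apply]
    exact lt_of_le_of_ne (hint n i) (hcon i)
  obtain ⟨c, hc, hci⟩ := exists_unit τ ((pt (member F t))^[n₀] (start x t))
    ((pt (member F t))^[n₀ + m] (start x t)) (hunit _ (by omega)) (hint _) (hunit _ le_rfl)
    (hint _) (fun i j => by
      have h1 := (val_lt_iff τ).1 (hSm' i j (ringOf τ) (hSM i j) t ht hD' hE')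
      rw [map_sub (eval t), map_mul (eval t), map_mul (eval t)] at h1
      simp only [orbit_apply]
      exact h1)
  have hper := near_periodic τ (member F t) (fun i => homog_member (hF i) t) (start x t) hf hx
    n₀ m hm c hc hci
  refine ⟨hf, hx, fun n => ?_, hper⟩
  rcases lt_or_ge n n₀ with hn | hn
  · exact hunit n (by omega)
  · obtain ⟨l, rfl⟩ := Nat.exists_eq_add_of_le hn
    obtain ⟨u, hu, hui⟩ := hper l
    have hlm : l % m < m := Nat.mod_lt _ hm
    obtain ⟨i, hi⟩ := hunit (n₀ + l % m) (by omega)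
    refine ⟨i, norm_unit_of_near τ (a := u * (pt (member F t))^[n₀ + l % m] (start x t) i) ?_
      (hui i)⟩
    rw [map_mul, norm_mul, hu, hi, one_mul]

end Pool.Agent.Q170.DM
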